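import Pool.Agent.H97.FreeProb.Final

/-!
# A freely infinitely divisible positive law which is not free regular and whose free
multiplicative square is freely infinitely divisible

The example `μ` has R-transform `R z = 4 - G (z + 4)`, where `G` is the Cauchy transform of the
standard semicircle law on `[-2, 2]`; its Lévy measure is the law of `-1 / (4 - s)` (up to the
density `1 / (4 - s)`), carried by the negative half line, so that `μ` is not free regular.  The
free multiplicative square has R-transform `16 - 1 / (1 + w) - ∫ 1 / (1 + w - s² / 16)`, which is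
again of Lévy-Khintchine form.
-/

open MeasureTheory
open Pool.Agent.H97.FreeProb

namespace Pool.Agent.Results.MP_d2a342_pr.NotFreeRegular

/-- There is a compactly supported law `μ` on `[0, ∞)` which is `⊞`-infinitely divisible and not
free regular, for which `μ ⊠ μ` (exists and) is `⊞`-infinitely divisible. -/
theorem result : ∃ μ : Measure ℝ, IsPosLaw μ ∧ FreeInfDiv μ ∧ ¬ FreeRegular μ ∧
    ¬ FreeRegular' μ ∧ (∃ ρ, IsFreeMulConv μ μ ρ) ∧
    ∀ ρ, IsFreeMulConv μ μ ρ → FreeInfDiv ρ :=
  main

end Pool.Agent.Results.MP_d2a342_pr.NotFreeRegular
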